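import Pool.Agent.Lib.MP_e9c0f3_ag.DR.Bridge

open MvPolynomial Pool.Agent.Lib.MP_e9c0f3_ag Pool.Agent.Lib.MP_e9c0f3_ag.DS

namespace Pool.Agent.Results.MP_e9c0f3_ag.DeRham

/-- The variational Hodge conjecture in algebraic de Rham cohomology, for families of smooth
projective hypersurfaces of dimension `2 * k` and cycles in the linkage class of a complete
intersection. Cohomology is computed by algebraic forms on the Jouanolou torsor. -/
theorem result (k d N : ℕ) (hk : 1 ≤ k) (hd : 2 ≤ d) (hN : N = 2 * k + 2) (A : Type) [CommRing A]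
    [IsDomain A] [Algebra ℂ A] [Algebra.Smooth ℂ A] (F : MvPolynomial (Fin N) A)
    (hF : F.IsHomogeneous d)
    (hs : ∀ (s : A →ₐ[ℂ] ℂ) (z : Fin N → ℂ), (∀ i, eval z (pderiv i (fibre F s)) = 0) → z = 0)
    (ω : Form (Jou F)) (hω : HasDeg (2 * k) ω) (hflat : Flat (base F) ω)
    (hhodge : ∀ s : A →ₐ[ℂ] ℂ, InFil (hodge (fibre F s)) k (res F s ω))
    (s₀ : A →ₐ[ℂ] ℂ) (I : Ideal (MvPolynomial (Fin N) ℂ))
    (hI : ∀ p ∈ I, ∀ n, homogeneousComponent n p ∈ I) (hL : Licci (k + 1) I)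
    (hFI : fibre F s₀ ∈ I) (h0 : IsCyc k (cyc (fibre F s₀) I) (prj (fibre F s₀)) (res F s₀ ω))
    (s : A →ₐ[ℂ] ℂ) : IsAlg k (res F s ω) :=
  main_ds k d N hk hd hN A F hF hs ω hω hflat hhodge s₀ I hI hL hFI h0 s

end Pool.Agent.Results.MP_e9c0f3_ag.DeRham
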