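import Pool.Agent.Lib.MP_e9c0f3_ag.LF.Main

open MvPolynomial Pool.Agent.Lib.MP_e9c0f3_ag Pool.Agent.Lib.MP_e9c0f3_ag.DS
  Pool.Agent.Lib.MP_e9c0f3_ag.MC

namespace Pool.Agent.Results.MP_e9c0f3_ag.LargeFamilies

/-- The variational Hodge conjecture in algebraic de Rham cohomology, for an arbitrary algebraic
class in the middle cohomology of a family of smooth projective hypersurfaces of dimension `2 * k`
whose codimension among all hypersurfaces of degree `d` is at most that of the hypersurfaces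
containing a linear space of dimension `k`, or less than that of the hypersurfaces containing a
quadric of dimension `k`, or equal to it and `5 ≤ d`. -/
theorem result (k d N : ℕ) (hk : 2 ≤ k) (hd : 3 ≤ d) (hkd : ¬ (k = 2 ∧ d = 3))
    (hN : N = 2 * k + 2) (A : Type) [CommRing A] [IsDomain A] [Algebra ℂ A] [Algebra.Smooth ℂ A]
    (F : MvPolynomial (Fin N) A) (hF : F.IsHomogeneous d)
    (hs : ∀ (s : A →ₐ[ℂ] ℂ) (z : Fin N → ℂ), (∀ i, eval z (pderiv i (fibre F s)) = 0) → z = 0)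
    (s₁ : A →ₐ[ℂ] ℂ)
    (h1 : (d + (2 * k + 1)).choose d + (k + 1) ^ 2 ≤
        Module.finrank ℂ (tang F s₁) + (d + k).choose k ∨
      (d + (2 * k + 1)).choose d + (k + 1) ^ 2 + k + (k + 2).choose 2 <
        Module.finrank ℂ (tang F s₁) + (d + k).choose k + (d - 1 + k).choose k ∨
      5 ≤ d ∧ (d + (2 * k + 1)).choose d + (k + 1) ^ 2 + k + (k + 2).choose 2 ≤
        Module.finrank ℂ (tang F s₁) + (d + k).choose k + (d - 1 + k).choose k)
    (ω : Form (Jou F)) (hω : HasDeg (2 * k) ω) (hflat : Flat (base F) ω)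
    (hhodge : ∀ s : A →ₐ[ℂ] ℂ, InFil (hodge (fibre F s)) k (res F s ω))
    (s₀ : A →ₐ[ℂ] ℂ) (h0 : IsAlg k (res F s₀ ω)) (s : A →ₐ[ℂ] ℂ) : IsAlg k (res F s ω) :=
  LF.main_ds hk hd hkd hN hF hs hω hflat hhodge h1 h0 s

end Pool.Agent.Results.MP_e9c0f3_ag.LargeFamilies
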