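import Pool.Agent.Lib.MP_e9c0f3_ag.MC.GapD

open MvPolynomial Pool.Agent.Lib.MP_e9c0f3_ag Pool.Agent.Lib.MP_e9c0f3_ag.MC

namespace Pool.Agent.Results.MP_e9c0f3_ag.MinimalCodim

/-- The two smallest Hodge loci of smooth hypersurfaces of dimension `2 * k`: a family that
carries a nonzero flat primitive class of Hodge type has codimension at least
`(d + k).choose k - (k + 1) ^ 2`; if equality holds, or the codimension is less than that of the
hypersurfaces containing a quadric of dimension `k`, or equal to it and `5 ≤ d`, the class is on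
every fibre a fixed multiple of the class of a linear space or, in the last case only, of a
quadric of dimension `k`. -/
theorem result (k d : ℕ) (hk : 2 ≤ k) (hd : 3 ≤ d) (hkd : ¬ (k = 2 ∧ d = 3))
    (A : Type) [CommRing A] [IsDomain A] [Algebra ℂ A] [Algebra.Smooth ℂ A]
    (F β : MvPolynomial (Fin (k + 1 + (k + 1))) A) (hF : F.IsHomogeneous d)
    (hs : ∀ (s : A →ₐ[ℂ] ℂ) (z : Fin (k + 1 + (k + 1)) → ℂ),
      (∀ i, eval z (pderiv i (map (s : A →+* ℂ) F)) = 0) → z = 0)
    (hβ : β.totalDegree ≤ (k + 1) * (d - 2))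
    (hflat : ∀ D : Derivation ℂ A A, Exact F (coeffMap D β + coeffMap D F * β))
    (s₀ : A →ₐ[ℂ] ℂ) (h0 : ¬ Exact (map (s₀ : A →+* ℂ) F) (map (s₀ : A →+* ℂ) β)) :
    Module.finrank ℂ (tang F s₀) + (d + k).choose k ≤ (d + (2 * k + 1)).choose d + (k + 1) ^ 2 ∧
      (Module.finrank ℂ (tang F s₀) + (d + k).choose k =
          (d + (2 * k + 1)).choose d + (k + 1) ^ 2 ∨
        (d + (2 * k + 1)).choose d + (k + 1) ^ 2 + k + (k + 2).choose 2 <
          Module.finrank ℂ (tang F s₀) + (d + k).choose k + (d - 1 + k).choose k ∨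
        5 ≤ d ∧ Module.finrank ℂ (tang F s₀) + (d + k).choose k + (d - 1 + k).choose k =
          (d + (2 * k + 1)).choose d + (k + 1) ^ 2 + k + (k + 2).choose 2 →
        ∃ (n : ℕ) (c : ℂ), (n = 1 ∨ n = 2 ∧
            Module.finrank ℂ (tang F s₀) + (d + k).choose k + (d - 1 + k).choose k =
              (d + (2 * k + 1)).choose d + (k + 1) ^ 2 + k + (k + 2).choose 2) ∧
          ∀ s : A →ₐ[ℂ] ℂ, ∃ (q r : MvPolynomial (Fin (k + 1 + (k + 1))) ℂ)
            (x g : Fin k → MvPolynomial (Fin (k + 1 + (k + 1))) ℂ),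
            q.IsHomogeneous n ∧ r.IsHomogeneous (d - n) ∧ (∀ i, (x i).IsHomogeneous 1) ∧
            (∀ i, (g i).IsHomogeneous (d - 1)) ∧
            map (s : A →+* ℂ) F = q * r + ∑ i, x i * g i ∧
            Exact (map (s : A →+* ℂ) F) (map (s : A →+* ℂ) β - c • H48.jd
              (Fin.append (Fin.cons q x : Fin (k + 1) → _) (Fin.cons r g : Fin (k + 1) → _)))) :=
  MC.main2 k d hk hd hkd A F β hF hs hβ hflat s₀ h0

end Pool.Agent.Results.MP_e9c0f3_ag.MinimalCodim
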