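import Pool.Agent.Lib.MP_e9c0f3_ag.K2.Final
import Pool.Agent.Lib.MP_e9c0f3_ag.K2.SEx
import Pool.Agent.Lib.MP_e9c0f3_ag.K2.SCE
import Pool.Agent.Lib.MP_e9c0f3_ag.H5T.Ends
import Pool.Agent.Lib.MP_e9c0f3_ag.H5T.Main
import Pool.Agent.Lib.MP_e9c0f3_ag.H32C.Converse

/-! The tropical Hodge conjecture for smooth projective tropical varieties with real edge lengths:
a rational class of bidegree `(k, k)` is killed by the eigenwave operator if and only if it is the
class of a tropical cycle. -/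

open H5T Matrix

namespace Pool.Agent.Results.MP_e9c0f3_ag.TropicalSmooth

theorem result {n d k : ℕ} (X : TropCx n) (hS : X.Smooth d) (hP : X.Proj)
    (u : List (Set (Pt n)) →₀ Mv n) (hu : u ∈ X.Cyc k k) :
    X.wave u ∈ (X.C X.Flag (re (X.F (k + 1))) k).map bd ⊔ X.Z X.Flag (re X.I) ↔
      ∃ W, X.TropCyc k W ∧ u.mapDomain (List.map X.pt) - cut W ∈ X.B Inside k k := by
  refine ⟨fun hw => ?_, fun ⟨W, hW, h⟩ => Conv.converse X hu.1 hW h⟩
  obtain ⟨hV, m, hL⟩ := K2.kaehler hS hP
  obtain ⟨c, hc, hb, h⟩ := tropical_hodge X m hV hL u hu hw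
  obtain ⟨W, hW, rfl⟩ := X.rays.exists_cycle_cut hc.1 hc.2 hb
  exact ⟨W, hW, h⟩

/-- Nothing is lost in passing from flags to affine simplices: the map is injective in homology. -/
theorem comparison {n p q : ℕ} (X : TropCx n) (u : List (Set (Pt n)) →₀ Mv n) (hu : u ∈ X.Cyc p q)
    (h : u.mapDomain (List.map X.pt) ∈ X.B Inside p q) : u ∈ X.B X.Flag p q :=
  X.comparison hu.1 h

/-- The tropical projective line is smooth and projective, and its group of bidegree `(1, 1)` is
not zero. -/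
theorem line_example (a : ℝ) (ha : 0 < a) : ∃ X : TropCx 1,
    {x : Pt 1 | 0 ≤ x 0 ∧ x 0 ≤ a} ∈ X.cells ∧ X.Smooth 1 ∧ X.Proj ∧
      ¬ X.Cyc 1 1 ≤ X.B X.Flag 1 1 :=
  K2.line_smooth a ha

/-- A complete intersection of `c` tropical hypersurfaces with arbitrary real coefficients `co` in
a product of tropical projective spaces is projective. It is smooth of dimension `n - c` if its
Cayley triangulation is unimodular: the vectors `(e_(col a), ex a)` of the monomials that are
maximal at a point have an integral dual family. -/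
theorem intersection_smooth {n m s c : ℕ} (X : TropCx n) (blk : Fin n → Fin m)
    (col : Fin s → Fin c) (ex : Fin s → Fin n → ℤ) (co : Fin s → ℝ) (R : ℝ)
    (h : X.IsCI blk col (fun a i => ex a i) co R)
    (hu : ∀ x, ∀ a ∈ tops col (fun a i => ex a i) co x, ∃ (y : Fin c → ℤ) (w : Fin n → ℤ),
      ∀ b ∈ tops col (fun a i => ex a i) co x, y (col b) + ex b ⬝ᵥ w = if b = a then 1 else 0) :
    X.Smooth (n - c) ∧ X.Proj :=
  ⟨SC.smooth h hu, SC.proj h⟩

/-- Hypersurfaces of every degree `δ` in tropical projective space of every dimension `n`: all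
monomials of degree at most `δ` occur, and the real coefficients range over an open set. -/
theorem hypersurface_example {n s δ : ℕ} (ex : Fin s → Fin n → ℤ) (hi : Function.Injective ex)
    (hr : ∀ v, v ∈ Set.range ex ↔ (∀ k, 0 ≤ v k) ∧ ∑ k, v k ≤ δ) (co : Fin s → ℝ)
    (hc : ∀ a, |co a + (∑ k, (∑ i with i ≤ k, ex a i) ^ 2 +
      ∑ k, ∑ l, (∑ i with i ≤ k, ex a i - ∑ i with i ≤ l, ex a i) ^ 2 : ℤ)| < 1 / 2) :
    ∀ᶠ R in Filter.atTop, ∃ X : TropCx n,
      X.IsCI (fun _ => (0 : Fin 1)) (fun _ => (0 : Fin 1)) (fun a i => ex a i) co R ∧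
      X.Smooth (n - 1) ∧ X.Proj :=
  SC.exists_hypersurface hi hr hc

end Pool.Agent.Results.MP_e9c0f3_ag.TropicalSmooth
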